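import Pool.Agent.Mld.Main
import Pool.Agent.Mld.Final

/-!
# MP_1fc009_ag: minimal log discrepancies are not linear on uniform rational polytopes

Negative answer to Q1 (hence also to Q2) in dimension three.
-/

open scoped BigOperators

namespace Pool.Agent.Results.MP_1fc009_ag.NonlinearMld

open MldPoly

theorem le_mldval {a b : ℤ} (ha : 3 ≤ a) (hb : 3 ≤ b) (v : Fin 2 → ℝ) (hv0 : 0 < v 0)
    (hv1 : 0 < v 1) : 1 - v 0 - v 1 ≤ mldval a b v := by
  have h1 : (3 : ℝ) ≤ a := by exact_mod_cast ha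
  have h2 : (3 : ℝ) ≤ b := by exact_mod_cast hb
  have hn : 0 < (a : ℝ) * b - 1 := by nlinarith
  unfold mldval
  have h3 : 0 ≤ min ((a : ℝ) * v 0 + v 1) (v 0 + (b : ℝ) * v 1) / ((a : ℝ) * b - 1) := by
    apply div_nonneg _ hn.le
    apply le_min <;> positivity
  linarith

/-- Let `k` be an algebraically closed field of characteristic zero, `v = (v 0, v 1)` with
`v 0, v 1 > 0`, `v 0 + v 1 < 1` and `v 0 / v 1` irrational, and `0 < ε ≤ 1 - v 0 - v 1`.  Then the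
property asked for in Q1 fails for `d = 3`, `m = 2`, `ε` and `v`.  Explicitly: for every rational
polytope `P ∋ v`, the convex hull of rational points `vtx j`, there are a normal affine threefold
`X`, a closed point `x` and effective Weil divisors `B 0, B 1` such that
`(X ∋ x, v 0 B 0 + v 1 B 1)` is `ε`-lc at `x`, and points `w, w' ∈ P` with midpoint `v` such that
`mld (X ∋ x, ∑ w i B i) + mld (X ∋ x, ∑ w' i B i) < 2 mld (X ∋ x, ∑ v i B i)`; so the minimal log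
discrepancy is not an affine function on `P`. -/
theorem result (k : Type) [Field k] [IsAlgClosed k] [CharZero k] (v : Fin 2 → ℝ)
    (hv0 : 0 < v 0) (hv1 : 0 < v 1) (hv : v 0 + v 1 < 1) (hirr : Irrational (v 0 / v 1))
    (ε : ℝ) (hε : 0 < ε) (hεv : ε ≤ 1 - v 0 - v 1) :
    ¬ UniformPolytope k 3 2 ε v ∧
    ∀ (r : ℕ) (vtx : Fin r → Fin 2 → ℚ),
      v ∈ convexHull ℝ (Set.range fun (j : Fin r) (i : Fin 2) => (vtx j i : ℝ)) →
      ∃ (K : Type) (_ : Field K) (_ : Algebra k K) (X : NormalVariety k K 3) (x : Ideal X.A)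
        (B : Fin 2 → EffDiv X) (w w' : Fin 2 → ℝ) (μ μ₁ μ₂ : ℝ),
        x.IsMaximal ∧ IsMld X x (comb v B) μ ∧ ε ≤ μ ∧
        w ∈ convexHull ℝ (Set.range fun (j : Fin r) (i : Fin 2) => (vtx j i : ℝ)) ∧
        w' ∈ convexHull ℝ (Set.range fun (j : Fin r) (i : Fin 2) => (vtx j i : ℝ)) ∧
        (∀ i, w i + w' i = 2 * v i) ∧
        IsMld X x (comb w B) μ₁ ∧ IsMld X x (comb w' B) μ₂ ∧ μ₁ + μ₂ < 2 * μ := by
  refine ⟨main_proof formula_final k v hv0 hv1 hv hirr ε hε hεv, ?_⟩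
  intro r vtx hvP
  obtain ⟨a₀, b₀, ha3, hb3, w, w', hw, hw', ⟨hw1, hw2, hw3⟩, ⟨hw1', hw2', hw3'⟩, hmid, hlt⟩ :=
    kink_mid v hv0 hv1 hv hirr r vtx hvP
  obtain ⟨X, x, B, hx, hmld⟩ := formula_final k a₀ b₀ ha3 hb3
  exact ⟨K3 k, inferInstance, inferInstance, X, x, B, w, w', mldval a₀ b₀ v, mldval a₀ b₀ w,
    mldval a₀ b₀ w', hx, hmld v hv0.le hv1.le hv.le, hεv.trans (le_mldval ha3 hb3 v hv0 hv1),
    hw, hw', fun i => by rw [hmid i]; ring, hmld w hw1.le hw2.le hw3.le,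
    hmld w' hw1'.le hw2'.le hw3'.le, by linarith [hlt]⟩

end Pool.Agent.Results.MP_1fc009_ag.NonlinearMld
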